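import Pool.Agent.V5helper51.ML.Stm
import Pool.Agent.V5helper51.MT.FIN

set_option autoImplicit false

open Finset MeasureTheory Filter Topology

namespace Pool.Agent.V5helper51.ML

open Pool.Agent.V5helper51.MT (a cube blk a_bd)

lemma card_sq_le {ι : Type} [DecidableEq ι] (S : Finset ι) (s : ι → ℤ) :
    (S.card : ℝ) ^ 2 ≤ (S.image s).card * ((S ×ˢ S).filter fun p => s p.1 = s p.2).card := by
  have h1 : S.card = ∑ t ∈ S.image s, (S.filter fun x => s x = t).card :=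
    card_eq_sum_card_fiberwise fun x hx => mem_image_of_mem s hx
  have h2 : ((S ×ˢ S).filter fun p => s p.1 = s p.2).card =
      ∑ t ∈ S.image s, (S.filter fun x => s x = t).card ^ 2 := by
    rw [card_eq_sum_card_fiberwise (f := fun p : ι × ι => s p.1) (t := S.image s)]
    · refine sum_congr rfl fun t _ => ?_
      rw [sq, ← card_product]
      congr 1
      ext ⟨x, y⟩
      simp only [mem_filter, mem_product]
      constructor
      · rintro ⟨⟨⟨hx, hy⟩, h3⟩, h4⟩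
        exact ⟨⟨hx, h4⟩, ⟨hy, by rw [← h3, h4]⟩⟩
      · rintro ⟨⟨hx, h3⟩, ⟨hy, h4⟩⟩
        exact ⟨⟨⟨hx, hy⟩, by rw [h3, h4]⟩, h3⟩
    · intro p hp
      have hp' := (mem_filter.1 hp).1
      exact mem_image_of_mem s (mem_product.1 hp').1
  rw [h1, h2]
  push_cast
  have h3 := sum_mul_sq_le_sq_mul_sq (S.image s) (fun t => (((S.filter fun x => s x = t).card : ℕ) : ℝ)) (fun _ => (1 : ℝ))
  simp only [mul_one, one_pow, sum_const, nsmul_eq_mul] at h3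
  linarith

lemma card_boxl (l P : ℕ) : (boxl l P).card = (P + 1) ^ l := by
  unfold boxl
  rw [Fintype.card_piFinset]
  calc ∏ i : Fin l, (blk P i).card = ∏ _i : Fin l, (P + 1) := by
        refine prod_congr rfl fun i _ => ?_
        unfold blk
        rw [Nat.card_Icc]
        have : (2 * (i : ℕ) + 3) * P = 2 * ((i : ℕ) + 1) * P + P := by ring
        omega
    _ = (P + 1) ^ l := by rw [prod_const, card_univ, Fintype.card_fin]

lemma sum_bdl (k q : ℕ) (α : Fin (k - 1) → ℝ) (x₀ : ℕ)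
    (h : ∀ x : ℕ, x₀ ≤ x → 0 ≤ a k q α x ∧ (a k q α x : ℝ) ≤ 2 * (x : ℝ) ^ k)
    (l P : ℕ) (hl : l ≤ k) (hP : x₀ ≤ P) (v : Fin l → ℕ) (hv : v ∈ boxl l P) :
    0 ≤ ∑ i, a k q α (v i) ∧
      ((∑ i, a k q α (v i) : ℤ) : ℝ) ≤ ((4 * k * (2 * k + 1) ^ k : ℕ) : ℝ) * (P : ℝ) ^ k := by
  unfold boxl at hv
  rw [Fintype.mem_piFinset] at hv
  have hb : ∀ i : Fin l, x₀ ≤ v i ∧ v i ≤ (2 * k + 1) * P := by
    intro i
    have h1 := hv i
    unfold blk at h1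
    rw [mem_Icc] at h1
    have hi := i.2
    constructor
    · calc x₀ ≤ 1 * P := by omega
        _ ≤ 2 * ((i : ℕ) + 1) * P := Nat.mul_le_mul_right _ (by omega)
        _ ≤ _ := h1.1
    · exact h1.2.trans (Nat.mul_le_mul_right _ (by omega))
  refine ⟨sum_nonneg fun i _ => (h _ (hb i).1).1, ?_⟩
  push_cast
  calc ∑ i, (a k q α (v i) : ℝ) ≤ ∑ _i : Fin l, 2 * ((2 * (k : ℝ) + 1) * P) ^ k := by
        refine sum_le_sum fun i _ => ?_
        refine (h _ (hb i).1).2.trans ?_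
        have h2 : (v i : ℝ) ≤ (2 * (k : ℝ) + 1) * P := by exact_mod_cast (hb i).2
        gcongr
    _ = l * (2 * ((2 * (k : ℝ) + 1) * P) ^ k) := by
        rw [sum_const, card_univ, Fintype.card_fin, nsmul_eq_mul]
    _ ≤ k * (4 * ((2 * (k : ℝ) + 1) * P) ^ k) := by
        have h2 : (l : ℝ) ≤ k := by exact_mod_cast hl
        gcongr
        norm_num
    _ = _ := by rw [mul_pow]; ring

/-- the number of the positive integers up to `x` that are sums of `l` numbers `a(y)` -/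
noncomputable def A (k q l : ℕ) (α : Fin (k - 1) → ℝ) (x : ℝ) : ℕ :=
  {n : ℕ | 1 ≤ n ∧ (n : ℝ) ≤ x ∧ ∃ y : Fin l → ℕ, ∑ i, a k q α (y i) = n}.ncard

lemma A_ge (k q : ℕ) (α : Fin (k - 1) → ℝ) (x₀ : ℕ)
    (h : ∀ x : ℕ, x₀ ≤ x → 0 ≤ a k q α x ∧ (a k q α x : ℝ) ≤ 2 * (x : ℝ) ^ k)
    (l P : ℕ) (hl : l ≤ k) (hP : x₀ ≤ P) (x : ℝ)
    (hx : ((4 * k * (2 * k + 1) ^ k : ℕ) : ℝ) * (P : ℝ) ^ k ≤ x) :
    (((boxl l P).image fun v => ∑ i, a k q α (v i)).card : ℝ) - 1 ≤ A k q l α x := by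
  classical
  set S := (boxl l P).image fun v => ∑ i, a k q α (v i) with hS
  have hfin : {n : ℕ | 1 ≤ n ∧ (n : ℝ) ≤ x ∧ ∃ y : Fin l → ℕ, ∑ i, a k q α (y i) = n}.Finite := by
    refine Set.Finite.subset (Set.finite_Iic ⌊x⌋₊) ?_
    rintro n ⟨-, h2, -⟩
    exact Nat.le_floor h2
  have hsub : (((S.erase 0).image Int.toNat : Finset ℕ) : Set ℕ) ⊆
      {n : ℕ | 1 ≤ n ∧ (n : ℝ) ≤ x ∧ ∃ y : Fin l → ℕ, ∑ i, a k q α (y i) = n} := by
    intro n hn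
    rw [mem_coe, mem_image] at hn
    obtain ⟨t, ht, rfl⟩ := hn
    rw [mem_erase, hS, mem_image] at ht
    obtain ⟨ht0, v, hv, hvt⟩ := ht
    have h1 := sum_bdl k q α x₀ h l P hl hP v hv
    rw [hvt] at h1
    have h2 : ((t.toNat : ℕ) : ℤ) = t := Int.toNat_of_nonneg h1.1
    refine ⟨by omega, ?_, v, by rw [hvt, h2]⟩
    have h3 : ((t.toNat : ℕ) : ℝ) = (t : ℝ) := by exact_mod_cast congrArg (Int.cast : ℤ → ℝ) h2
    rw [h3]
    exact h1.2.trans hx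
  have hinj : Set.InjOn Int.toNat (S.erase 0 : Finset ℤ) := by
    intro t ht t' ht' heq
    rw [mem_coe, mem_erase, hS, mem_image] at ht ht'
    obtain ⟨-, v, hv, hvt⟩ := ht
    obtain ⟨-, v', hv', hvt'⟩ := ht'
    have h1 := (sum_bdl k q α x₀ h l P hl hP v hv).1
    have h2 := (sum_bdl k q α x₀ h l P hl hP v' hv').1
    rw [hvt] at h1
    rw [hvt'] at h2
    rw [← Int.toNat_of_nonneg h1, ← Int.toNat_of_nonneg h2, heq]
  have hcard : (S.erase 0).card ≤ A k q l α x := by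
    unfold A
    rw [← card_image_of_injOn hinj, ← Set.ncard_coe_finset]
    exact Set.ncard_le_ncard hsub hfin
  have h4 : S.card ≤ (S.erase 0).card + 1 := by
    have := pred_card_le_card_erase (s := S) (a := (0 : ℤ))
    omega
  have h5 : (S.card : ℝ) ≤ A k q l α x + 1 := by exact_mod_cast h4.trans (by omega)
  linarith

/-- the choice of the scale -/
lemma choose_m (k : ℕ) (hk : 2 ≤ k) (b : ℝ) (hb : 1 ≤ b) (m₃ : ℕ) (x : ℝ) (hx : b * ((2 : ℝ) ^ k) ^ m₃ ≤ x) :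
    ∃ m, m₃ ≤ m ∧ b * ((2 : ℝ) ^ m) ^ k ≤ x ∧ x ≤ b * 2 ^ k * ((2 : ℝ) ^ m) ^ k := by
  have hb0 : 0 < b := by linarith
  have h2k1 : (1 : ℝ) ≤ 2 ^ k := one_le_pow₀ (by norm_num)
  have h2k : (1 : ℝ) < 2 ^ k := one_lt_pow₀ (by norm_num) (by omega)
  have hpm : (1 : ℝ) ≤ ((2 : ℝ) ^ k) ^ m₃ := one_le_pow₀ h2k1
  have hdiv : ((2 : ℝ) ^ k) ^ m₃ ≤ x / b := by
    rw [le_div_iff₀ hb0]
    linarith
  obtain ⟨m, hm1, hm2⟩ := exists_nat_pow_near (hpm.trans hdiv) h2k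
  have hPk : ((2 : ℝ) ^ k) ^ m = ((2 : ℝ) ^ m) ^ k := by rw [← pow_mul, ← pow_mul, mul_comm]
  refine ⟨m, ?_, ?_, ?_⟩
  · by_contra hcon
    have h1 : m + 1 ≤ m₃ := by omega
    have h2 : ((2 : ℝ) ^ k) ^ (m + 1) ≤ ((2 : ℝ) ^ k) ^ m₃ := pow_le_pow_right₀ h2k1 h1
    linarith
  · rw [le_div_iff₀ hb0, hPk] at hm1
    linarith
  · rw [div_lt_iff₀ hb0, pow_succ, hPk] at hm2
    linarith

/-- `l < k` -/
theorem low (k l : ℕ) (hl : 1 ≤ l) (hlk : l < k) (q : ℕ) (α : Fin (k - 1) → ℝ)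
    (hpairs : ∃ m₀ : ℕ, ∀ m ≥ m₀,
      (((boxl l (2 ^ m) ×ˢ boxl l (2 ^ m)).filter fun p : (Fin l → ℕ) × (Fin l → ℕ) =>
        p.1 ≠ p.2 ∧ ∑ i, a k q α (p.1 i) = ∑ i, a k q α (p.2 i)).card : ℝ) ≤ ((2 : ℝ) ^ m) ^ (l - 1) * (m : ℝ) ^ 3) :
    ∀ᶠ x : ℝ in atTop, 1 / (8 * (((4 * k * (2 * k + 1) ^ k : ℕ) : ℝ) * 2 ^ k)) * x ^ ((l : ℝ) / k) <
      A k q l α x := by
  classical
  obtain ⟨x₀, -, ha⟩ := a_bd k q (by omega) α
  obtain ⟨m₁, hm₁⟩ := hpairs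
  set b : ℝ := ((4 * k * (2 * k + 1) ^ k : ℕ) : ℝ) with hb
  have hB1 : 1 ≤ 4 * k * (2 * k + 1) ^ k := by
    have : 0 < 4 * k * (2 * k + 1) ^ k := by
      have : 0 < k := by omega
      positivity
    omega
  have hb1 : 1 ≤ b := by rw [hb]; exact_mod_cast hB1
  have hlim : Tendsto (fun m : ℕ => (m : ℝ) ^ 3 / (2 : ℝ) ^ m) atTop (𝓝 0) :=
    tendsto_pow_const_div_const_pow_of_one_lt 3 (by norm_num)
  obtain ⟨m₄, hm₄⟩ := eventually_atTop.1 (hlim.eventually_le_const (by norm_num : (0 : ℝ) < 1))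
  filter_upwards [eventually_ge_atTop (b * ((2 : ℝ) ^ k) ^ (m₁ + m₄ + x₀ + 4))] with x hx
  obtain ⟨m, hmm, hx1, hx2⟩ := choose_m k (by omega) b hb1 _ x hx
  have hlt := (Nat.lt_two_pow_self (n := m))
  set P : ℕ := 2 ^ m with hP
  have hPr : (P : ℝ) = 2 ^ m := by rw [hP]; push_cast; rfl
  have hPr1 : (5 : ℝ) ≤ P := by exact_mod_cast (by omega : 5 ≤ P)
  have hPr0 : (0 : ℝ) < P := by linarith
  rw [← hPr] at hx1 hx2
  have hA := A_ge k q α x₀ ha l P hlk.le (by omega) x hx1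
  set S := (boxl l P).image fun v => ∑ i, a k q α (v i) with hS
  have hcs := card_sq_le (boxl l P) fun v => ∑ i, a k q α (v i)
  have hoff := hm₁ m (by omega)
  have h3 : (m : ℝ) ^ 3 ≤ P := by
    have := hm₄ m (by omega)
    rw [div_le_one (by positivity)] at this
    rw [hPr]
    exact this
  have hoff2 : (((boxl l P ×ˢ boxl l P).filter fun p : (Fin l → ℕ) × (Fin l → ℕ) =>
      p.1 ≠ p.2 ∧ ∑ i, a k q α (p.1 i) = ∑ i, a k q α (p.2 i)).card : ℝ) ≤ (P : ℝ) ^ l := by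
    refine hoff.trans ?_
    rw [← hPr]
    calc (P : ℝ) ^ (l - 1) * (m : ℝ) ^ 3 ≤ (P : ℝ) ^ (l - 1) * P := by gcongr
      _ = (P : ℝ) ^ l := by rw [← pow_succ]; congr 1; omega
  have hcard : ((boxl l P).card : ℝ) = ((P : ℝ) + 1) ^ l := by rw [card_boxl]; push_cast; rfl
  have hPl : (P : ℝ) ^ l ≤ ((P : ℝ) + 1) ^ l := by gcongr; linarith
  have hsplit : (((boxl l P ×ˢ boxl l P).filter fun p : (Fin l → ℕ) × (Fin l → ℕ) =>
      ∑ i, a k q α (p.1 i) = ∑ i, a k q α (p.2 i)).card : ℝ) ≤ (boxl l P).card + (P : ℝ) ^ l := by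
    have hsub : (boxl l P ×ˢ boxl l P).filter (fun p : (Fin l → ℕ) × (Fin l → ℕ) =>
        ∑ i, a k q α (p.1 i) = ∑ i, a k q α (p.2 i)) ⊆ ((boxl l P).image fun v => (v, v)) ∪
        (boxl l P ×ˢ boxl l P).filter fun p : (Fin l → ℕ) × (Fin l → ℕ) =>
          p.1 ≠ p.2 ∧ ∑ i, a k q α (p.1 i) = ∑ i, a k q α (p.2 i) := by
      rintro ⟨v, w⟩ hp
      rw [mem_filter, mem_product] at hp
      rw [mem_union, mem_image, mem_filter, mem_product]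
      by_cases h4 : v = w
      · left
        exact ⟨v, hp.1.1, by rw [h4]⟩
      · right
        exact ⟨hp.1, h4, hp.2⟩
    have h5 := (card_le_card hsub).trans (card_union_le _ _)
    have h6 : (((boxl l P).image fun v => (v, v)).card) ≤ (boxl l P).card := card_image_le
    have h7 : (((boxl l P ×ˢ boxl l P).filter fun p : (Fin l → ℕ) × (Fin l → ℕ) =>
      ∑ i, a k q α (p.1 i) = ∑ i, a k q α (p.2 i)).card : ℝ) ≤ (boxl l P).card +
        (((boxl l P ×ˢ boxl l P).filter fun p : (Fin l → ℕ) × (Fin l → ℕ) =>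
          p.1 ≠ p.2 ∧ ∑ i, a k q α (p.1 i) = ∑ i, a k q α (p.2 i)).card : ℝ) := by
      exact_mod_cast h5.trans (Nat.add_le_add_right h6 _)
    linarith
  have hS1 : ((boxl l P).card : ℝ) / 2 ≤ S.card := by
    have h4 : (((boxl l P ×ˢ boxl l P).filter fun p : (Fin l → ℕ) × (Fin l → ℕ) =>
      ∑ i, a k q α (p.1 i) = ∑ i, a k q α (p.2 i)).card : ℝ) ≤ 2 * (boxl l P).card := by
      rw [hcard] at hsplit ⊢
      linarith
    have h5 : 0 < ((boxl l P).card : ℝ) := by rw [hcard]; positivity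
    have h6 : ((boxl l P).card : ℝ) ^ 2 ≤ S.card * (2 * (boxl l P).card) :=
      hcs.trans (mul_le_mul_of_nonneg_left h4 (Nat.cast_nonneg _))
    nlinarith
  have hPl5 : (5 : ℝ) ≤ (P : ℝ) ^ l := by
    calc (5 : ℝ) ≤ P := hPr1
      _ = (P : ℝ) ^ 1 := (pow_one _).symm
      _ ≤ _ := pow_le_pow_right₀ (by linarith) hl
  have hfin : (P : ℝ) ^ l / 4 < A k q l α x := by
    rw [hcard] at hS1
    linarith
  -- the size of `x`
  have hk0 : (0 : ℝ) < k := by exact_mod_cast (by omega : 0 < k)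
  set K : ℝ := b * 2 ^ k with hK
  have hK1 : 1 ≤ K := by
    rw [hK]
    have : (1 : ℝ) ≤ 2 ^ k := one_le_pow₀ (by norm_num)
    nlinarith
  have hx0 : 0 ≤ x := le_trans (by positivity) hx1
  have he : (l : ℝ) / k ≤ 1 := by
    rw [div_le_one hk0]
    exact_mod_cast hlk.le
  have hxl : x ^ ((l : ℝ) / k) ≤ K * (P : ℝ) ^ l := by
    calc x ^ ((l : ℝ) / k) ≤ (K * (P : ℝ) ^ k) ^ ((l : ℝ) / k) := Real.rpow_le_rpow hx0 hx2 (by positivity)
      _ = K ^ ((l : ℝ) / k) * ((P : ℝ) ^ k) ^ ((l : ℝ) / k) := Real.mul_rpow (by linarith) (by positivity)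
      _ ≤ K * (P : ℝ) ^ l := by
          have h1 : K ^ ((l : ℝ) / k) ≤ K := by
            calc K ^ ((l : ℝ) / k) ≤ K ^ (1 : ℝ) := Real.rpow_le_rpow_of_exponent_le hK1 he
              _ = K := Real.rpow_one _
          have h2 : ((P : ℝ) ^ k) ^ ((l : ℝ) / k) = (P : ℝ) ^ l := by
            rw [← Real.rpow_natCast (P : ℝ) k, ← Real.rpow_mul hPr0.le, ← Real.rpow_natCast]
            congr 1
            field_simp
          rw [h2]
          gcongr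
  refine lt_of_le_of_lt ?_ hfin
  calc 1 / (8 * K) * x ^ ((l : ℝ) / k) ≤ 1 / (8 * K) * (K * (P : ℝ) ^ l) := by gcongr
    _ = (P : ℝ) ^ l / 8 := by field_simp
    _ ≤ (P : ℝ) ^ l / 4 := by linarith

/-- `l = k` -/
theorem top (k : ℕ) (hk : 2 ≤ k) (q : ℕ) (α : Fin (k - 1) → ℝ)
    (hpairs : ∃ m₀ : ℕ, ∀ m ≥ m₀, (((MT.box k (2 ^ m) ×ˢ MT.box k (2 ^ m)).filter
      fun p : (Fin k → ℕ) × (Fin k → ℕ) =>
        ∑ i, a k q α (p.1 i) = ∑ i, a k q α (p.2 i)).card : ℝ) ≤ ((2 : ℝ) ^ m) ^ k * (m : ℝ) ^ 3) :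
    ∀ᶠ x : ℝ in atTop, 1 / (8 * (((4 * k * (2 * k + 1) ^ k : ℕ) : ℝ) * 2 ^ k)) * (x / Real.log x ^ 3) <
      A k q k α x := by
  classical
  obtain ⟨x₀, -, ha⟩ := a_bd k q (by omega) α
  obtain ⟨m₁, hm₁⟩ := hpairs
  set b : ℝ := ((4 * k * (2 * k + 1) ^ k : ℕ) : ℝ) with hb
  have hB1 : 1 ≤ 4 * k * (2 * k + 1) ^ k := by
    have : 0 < 4 * k * (2 * k + 1) ^ k := by positivity
    omega
  have hb1 : 1 ≤ b := by rw [hb]; exact_mod_cast hB1
  have hlim : Tendsto (fun m : ℕ => (m : ℝ) ^ 3 / (2 : ℝ) ^ m) atTop (𝓝 0) :=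
    tendsto_pow_const_div_const_pow_of_one_lt 3 (by norm_num)
  obtain ⟨m₄, hm₄⟩ := eventually_atTop.1 (hlim.eventually_le_const (by norm_num : (0 : ℝ) < 1))
  filter_upwards [eventually_ge_atTop (b * ((2 : ℝ) ^ k) ^ (m₁ + m₄ + x₀ + 4))] with x hx
  obtain ⟨m, hmm, hx1, hx2⟩ := choose_m k (by omega) b hb1 _ x hx
  have hlt := (Nat.lt_two_pow_self (n := m))
  set P : ℕ := 2 ^ m with hP
  have hPr : (P : ℝ) = 2 ^ m := by rw [hP]; push_cast; rfl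
  have hPr1 : (5 : ℝ) ≤ P := by exact_mod_cast (by omega : 5 ≤ P)
  have hPr0 : (0 : ℝ) < P := by linarith
  rw [← hPr] at hx1 hx2
  have hA := A_ge k q α x₀ ha k P le_rfl (by omega) x hx1
  set S := (boxl k P).image fun v => ∑ i, a k q α (v i) with hS
  have hcs := card_sq_le (boxl k P) fun v => ∑ i, a k q α (v i)
  have hoff : (((boxl k P ×ˢ boxl k P).filter fun p : (Fin k → ℕ) × (Fin k → ℕ) =>
      ∑ i, a k q α (p.1 i) = ∑ i, a k q α (p.2 i)).card : ℝ) ≤ ((2 : ℝ) ^ m) ^ k * (m : ℝ) ^ 3 :=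
    hm₁ m (by omega)
  rw [← hPr] at hoff
  have h3 : (m : ℝ) ^ 3 ≤ P := by
    have := hm₄ m (by omega)
    rw [div_le_one (by positivity)] at this
    rw [hPr]
    exact this
  have hm4 : (4 : ℝ) ≤ m := by exact_mod_cast (by omega : 4 ≤ m)
  have hm0 : (0 : ℝ) < (m : ℝ) ^ 3 := by positivity
  have hcard : ((boxl k P).card : ℝ) = ((P : ℝ) + 1) ^ k := by rw [card_boxl]; push_cast; rfl
  have hPl : (P : ℝ) ^ k ≤ ((P : ℝ) + 1) ^ k := by gcongr; linarith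
  have hPk0 : 0 < (P : ℝ) ^ k := by positivity
  have hS1 : (P : ℝ) ^ k / (m : ℝ) ^ 3 ≤ S.card := by
    rw [div_le_iff₀ hm0]
    have h5 : ((P : ℝ) ^ k) ^ 2 ≤ S.card * ((P : ℝ) ^ k * (m : ℝ) ^ 3) := by
      calc ((P : ℝ) ^ k) ^ 2 ≤ ((boxl k P).card : ℝ) ^ 2 := by rw [hcard]; gcongr
        _ ≤ _ := hcs
        _ ≤ _ := mul_le_mul_of_nonneg_left hoff (Nat.cast_nonneg _)
    nlinarith
  have h2P : 2 * (m : ℝ) ^ 3 ≤ (P : ℝ) ^ k := by
    calc 2 * (m : ℝ) ^ 3 ≤ P * P := by nlinarith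
      _ = (P : ℝ) ^ 2 := by ring
      _ ≤ _ := pow_le_pow_right₀ (by linarith) hk
  have hfin : (P : ℝ) ^ k / (2 * (m : ℝ) ^ 3) ≤ A k q k α x := by
    have h6 : (1 : ℝ) ≤ (P : ℝ) ^ k / (2 * (m : ℝ) ^ 3) := by
      rw [le_div_iff₀ (by positivity)]
      linarith
    have h7 : (P : ℝ) ^ k / (m : ℝ) ^ 3 = (P : ℝ) ^ k / (2 * (m : ℝ) ^ 3) + (P : ℝ) ^ k / (2 * (m : ℝ) ^ 3) := by
      field_simp
      ring
    linarith
  -- the size of `x`
  set K : ℝ := b * 2 ^ k with hK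
  have hK1 : 1 ≤ K := by
    rw [hK]
    have : (1 : ℝ) ≤ 2 ^ k := one_le_pow₀ (by norm_num)
    nlinarith
  have hxpos : 0 < x := lt_of_lt_of_le (by positivity) hx1
  have hlog : (m : ℝ) ≤ Real.log x := by
    have h8 : ((2 : ℝ) ^ m) ^ k ≤ x := by
      rw [← hPr]
      nlinarith
    have h9 := Real.log_le_log (by positivity) h8
    rw [Real.log_pow, Real.log_pow] at h9
    have h10 : (0.69 : ℝ) < Real.log 2 := by
      have := Real.log_two_gt_d9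
      linarith
    have hk2 : (2 : ℝ) ≤ k := by exact_mod_cast hk
    have h11 : (m : ℝ) ≤ k * (m * Real.log 2) := by
      have h12 : (1 : ℝ) ≤ k * Real.log 2 := by nlinarith
      nlinarith
    linarith
  have hlog3 : (m : ℝ) ^ 3 ≤ Real.log x ^ 3 := by gcongr
  have hlogpos : 0 < Real.log x ^ 3 := by linarith
  have hmain : x / Real.log x ^ 3 ≤ K * (P : ℝ) ^ k / (m : ℝ) ^ 3 := by
    rw [div_le_div_iff₀ hlogpos hm0]
    have hKP : 0 ≤ K * (P : ℝ) ^ k := by positivity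
    exact mul_le_mul hx2 hlog3 hm0.le hKP
  have hlt2 : (P : ℝ) ^ k / (8 * (m : ℝ) ^ 3) < (P : ℝ) ^ k / (2 * (m : ℝ) ^ 3) := by
    apply div_lt_div_of_pos_left hPk0 (by positivity)
    linarith
  refine lt_of_le_of_lt ?_ (hlt2.trans_le hfin)
  calc 1 / (8 * K) * (x / Real.log x ^ 3) ≤ 1 / (8 * K) * (K * (P : ℝ) ^ k / (m : ℝ) ^ 3) := by gcongr
    _ = (P : ℝ) ^ k / (8 * (m : ℝ) ^ 3) := by field_simp

end Pool.Agent.V5helper51.ML
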