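import Pool.Agent.V5helper51.MT.Stm

/-!
# Project ML: sums of `l < k` perturbed `k`-th powers (MP_4e3e45_nt)

THEOREM. For almost all `α ∈ ℝ ^ (k-1)`, all `q ≥ 1`, `a(x) = x ^ k + q ⌊∑ α_j x ^ j⌋`: for every `1 ≤ l < k` at least
`c(k, l) x ^ (l/k)` of the `n ≤ x` are sums of `l` numbers `a(y)`, and at least `c(k) x / (log x) ^ 3` are sums of `k` of them (large `x`).
-/

set_option autoImplicit false

open Finset MeasureTheory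

namespace Pool.Agent.V5helper51.ML

open Pool.Agent.V5helper51.MT (a cube blk)

/-- `l`-tuples with one coordinate in each block -/
def boxl (l P : ℕ) : Finset (Fin l → ℕ) := Fintype.piFinset fun i : Fin l => blk P i

/-- **SEPL** (40 lines, uses `MT.S_WC`, `V5helper1.MT.WC`). Proof. WC with `(r, m, s) = (k - l, l, 0)`: for an `i` with `x i ≠ y i`
`1 ≤ |x i - y i| ≤ C ∑_{j = k-l+1}^{k} |h_j| / P ^ (j-1) ≤ C l max |h_j| / P ^ (k-l)`. -/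
def S_SEPL : Prop := ∀ k l : ℕ, 1 ≤ l → l < k → ∃ c : ℝ, 0 < c ∧ ∀ P : ℕ, 1 ≤ P → ∀ x ∈ boxl l P, ∀ y ∈ boxl l P, x ≠ y →
  ∃ j ∈ Icc 1 k, c * (P : ℝ) ^ (k - l) ≤ |∑ i, ((x i : ℝ) ^ j - (y i : ℝ) ^ j)|

open scoped Classical in
/-- **CNTL** (150 lines, uses `MT.S_WC`; adapt `V5helper6.MT.CNT`, which is the case `l = k`). Proof. If `D < P ^ (k-l)`: WC with
`(k - l, l, 0)` gives `|x_i - x'_i| ≤ C'` for all `i`. If `P ^ (k-l+t) ≤ D < P ^ (k-l+t+1)`, `t ≤ l - 1`, fix the first `t` coordinates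
(`(2 P) ^ t` ways); WC with `(k - l + t, l - t, t)` gives `|x_i - x'_i| ≤ C' D / P ^ (k-l+t)`, fix the coordinate `x_t` too, WC with
`(k - l + t + 1, l - t - 1, t + 1)` gives `|x_i - x'_i| ≤ C'` for the others. For `D ≥ P ^ k` the box has at most `(2 P) ^ l` elements. -/
def S_CNTL : Prop := ∀ k l : ℕ, 1 ≤ l → l < k → ∃ C : ℝ, 0 < C ∧ ∀ P : ℕ, 1 ≤ P → ∀ D : ℝ, 1 ≤ D → ∀ c : ℕ → ℝ,
  (((boxl l P).filter fun x : Fin l → ℕ => ∀ j ∈ Icc 1 k, |∑ i, (x i : ℝ) ^ j - c j| ≤ D).card : ℝ) ≤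
    C * (1 + D / (P : ℝ) ^ (k - l))

/-- **MVL** (180 lines, uses S_CNTL, S_SEPL, `MT.S_PR`; adapt `V5helper62.MT.MV`, which is the case `l = k`). Proof. As there: the measure is at
most `C / D`, `D = max 1 max_{j<k} |h_j|`, and the set is empty unless `|h_k| ≤ C₁ D`. By SEPL `D ≥ c' P ^ (k-l)` as `x ≠ y`; for
`2^i ≤ D < 2^(i+1)` (so `2^i ≥ c' P^(k-l) / 2`) the number of the pairs is at most `(2P)^l C (1 + 2^i / P^(k-l)) ≤ C' P^l 2^i / P^(k-l)`,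
so they contribute at most `C'' P^l / P^(k-l)`, and there are at most `C log P` indices `i`. -/
def S_MVL : Prop := ∀ k l q A : ℕ, 1 ≤ l → l < k → 1 ≤ q → 1 ≤ A → ∃ C : ℝ, 0 < C ∧ ∀ P : ℕ, 2 ≤ P →
  ∑ x ∈ boxl l P, ∑ y ∈ (boxl l P).erase x, volume.real {α : Fin (k - 1) → ℝ | α ∈ cube k A ∧
    ∑ i, a k q α (x i) = ∑ i, a k q α (y i)} ≤ C * (P : ℝ) ^ l / (P : ℝ) ^ (k - l) * Real.log P

/-- **AEL** (120 lines, uses S_MVL; adapt `V5helper70.MT.AE`). Markov and Borel-Cantelli, `P = 2^m`, `P^l / P^(k-l) ≤ P^(l-1)`: the measure of the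
`α ∈ cube k A` with more than `P ^ (l-1) m ^ 3` pairs is at most `C log P / m ^ 3 ≤ C / m ^ 2`; countably many `A`, `q`. -/
def S_AEL : Prop := ∀ k l : ℕ, 1 ≤ l → l < k → ∀ᵐ α : Fin (k - 1) → ℝ, ∀ q : ℕ, 1 ≤ q → ∃ m₀ : ℕ, ∀ m ≥ m₀,
  (((boxl l (2 ^ m) ×ˢ boxl l (2 ^ m)).filter fun p : (Fin l → ℕ) × (Fin l → ℕ) =>
    p.1 ≠ p.2 ∧ ∑ i, a k q α (p.1 i) = ∑ i, a k q α (p.2 i)).card : ℝ) ≤ ((2 : ℝ) ^ m) ^ (l - 1) * (m : ℝ) ^ 3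

end Pool.Agent.V5helper51.ML
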